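import Pool.Agent.W_MP_f61043B_h40.StmtB

set_option autoImplicit false

/-!
# MP_f61043_lc, part B : `V_κ` for a regular strong limit cardinal `κ` of a model of ZFC
-/

namespace F61BM
open HESR SQR
universe u
variable {N : Type u} {E : N → N → Prop}

section
variable (hZ : IsZFC E)
include hZ

/-- a functional relation on `b` with values in `c`, completed to a function from `b` to `c` -/
theorem exMaps {R : N → N → Prop} (hR : Def2 E R) {b c z : N} (hz : E z c)
    (hu : ∀ x, E x b → ∀ y y', R x y → R x y' → y = y') :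
    ∃ f, Maps E f b c ∧ ∀ x, E x b → ∀ y, App E f x y ↔
      ((E y c ∧ R x y) ∨ ((¬ ∃ y', E y' c ∧ R x y') ∧ y = z)) := by
  have h1 : ∀ {k : ℕ} {f g : (Fin k → N) → N}, DefFun E f → DefFun E g → Def E (fun v => R (f v) (g v)) :=
    fun hf hg => Def.sub2 hR hf hg
  obtain ⟨f, hf, happ⟩ := hZ.exFun (R := fun x y => (E y c ∧ R x y) ∨ ((¬ ∃ y', E y' c ∧ R x y') ∧ y = z))
    (by (repeat' (first | exact h1 (DefFun.var _) (DefFun.var _) | exact DefFun.var _ | exact DefFun.const _ | apply Def.or | apply Def.eq | apply Def.mem | apply Def.not | apply Def.and | apply Def.imp | apply Def.ex | apply Def.all))) b (by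
    intro x hx
    by_cases h : ∃ y', E y' c ∧ R x y'
    · obtain ⟨y, hy, hxy⟩ := h
      refine ⟨y, Or.inl ⟨hy, hxy⟩, ?_⟩
      rintro y' (⟨_, h2⟩ | ⟨h2, _⟩)
      · exact hu x hx _ _ h2 hxy
      · exact (h2 ⟨y, hy, hxy⟩).elim
    · refine ⟨z, Or.inr ⟨h, rfl⟩, ?_⟩
      rintro y' (⟨h2, h3⟩ | ⟨_, h2⟩)
      · exact (h ⟨y', h2, h3⟩).elim
      · exact h2)
  refine ⟨f, ⟨hf, fun x y hxy => ?_⟩, happ⟩
  rcases (happ x (hf.dom hZ hxy) y).1 hxy with ⟨h2, _⟩ | ⟨_, rfl⟩
  · exact h2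
  · exact hz

variable {κ : N} (h : InacB E κ)
include h

omit hZ in
theorem InacB.ord : IsOrd E κ := h.1

theorem InacB.lim : IsLim E κ := by
  obtain ⟨ho, ⟨w, hw, hwκ⟩, hs, _, _⟩ := h
  refine ⟨ho, ⟨w, hwκ⟩, fun x hx => ?_⟩
  obtain ⟨s, hs'⟩ := hZ.exSucc x
  refine ⟨s, ?_, hs'⟩
  have h1 : Sub E s κ := fun z hz => by
    rcases (hs' z).1 hz with h2 | rfl
    · exact ho.trans hx h2
    · exact hx
  rcases ((hs'.ord (ho.mem hx)).sub_iff hZ ho).1 h1 with h2 | h2
  · exact h2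
  · exfalso
    obtain ⟨y, hy, hxy⟩ := hs x hx
    rw [← h2] at hy
    rcases (hs' y).1 hy with h3 | rfl
    · exact hZ.asymm h3 hxy
    · exact hZ.irrefl _ hxy

/-- the empty set is an element of `κ` -/
theorem InacB.emp {z : N} (hz : IsEmp E z) : E z κ := by
  obtain ⟨w, hw, hwκ⟩ := h.2.1
  exact h.1.trans hwκ ((hw.mem_iff hZ).2 hz.nat)

/-- functional relations on an element of `κ` with values in `κ` are bounded -/
theorem InacB.bddR {γ : N} (hγ : E γ κ) {R : N → N → Prop} (hR : Def2 E R)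
    (hu : ∀ x, E x γ → ∀ y y', R x y → R x y' → y = y') :
    ∃ β, E β κ ∧ ∀ x, E x γ → ∀ y, E y κ → R x y → E y β := by
  obtain ⟨z, hz⟩ := hZ.exEmp
  obtain ⟨f, hf, happ⟩ := exMaps hZ hR (c := κ) (h.emp hZ hz) hu
  obtain ⟨β, hβ, hb⟩ := h.2.2.2.1 γ f hγ hf
  exact ⟨β, hβ, fun x hx y hy hxy => hb x y ((happ x hx y).2 (Or.inl ⟨hy, hxy⟩))⟩

/-- functional relations on a set covered by an element of `κ` -/
theorem InacB.bddC {γ a : N} (hγ : E γ κ) (hc : Cov E γ a) {R : N → N → Prop} (hR : Def2 E R)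
    (hu : ∀ x, E x a → ∀ y y', R x y → R x y' → y = y') :
    ∃ β, E β κ ∧ ∀ x, E x a → ∀ y, E y κ → R x y → E y β := by
  obtain ⟨g, hg, hs⟩ := hc
  have h1 : ∀ {k : ℕ} {f g : (Fin k → N) → N}, DefFun E f → DefFun E g → Def E (fun v => R (f v) (g v)) :=
    fun hf hg => Def.sub2 hR hf hg
  obtain ⟨β, hβ, hb⟩ := h.bddR hZ hγ (R := fun x y => ∃ u, App E g x u ∧ E u a ∧ R u y)
    (by (repeat' (first | exact h1 (DefFun.var _) (DefFun.var _) | apply App.df | exact DefFun.var _ | exact DefFun.const _ | apply Def.mem | apply Def.and | apply Def.ex))) (by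
    rintro x hx y y' ⟨u, h2, h3, h4⟩ ⟨u', h2', h3', h4'⟩
    obtain rfl := hg.val hZ h2 h2'
    exact hu u h3 _ _ h4 h4')
  refine ⟨β, hβ, fun x hx y hy hxy => ?_⟩
  obtain ⟨x', hx'⟩ := hs x hx
  exact hb x' (hg.dom hZ hx') y hy ⟨x, hx', hx, hxy⟩

theorem InacB.card : IsCard E κ := by
  refine ⟨h.1, fun β f hβ hf hon => ?_⟩
  obtain ⟨γ, hγ, hb⟩ := h.bddR hZ hβ (R := fun x y => App E f x y) (by (repeat' (first | assumption | (apply DefFun.comp; assumption) | apply Cov.df | apply IsLim.df | apply IsSC.df | apply Eqp.df | apply IsBij.df | apply IsCard.df | apply IsV.df | apply Maps.df | apply IsFun.df | apply App.df | apply IsOmega.df | apply IsNat.df | apply IsOrd.df | apply IsTr.df | apply IsSucc.df | apply IsPair.df | apply IsUPair.df | apply IsEmp.df | apply Sub.df | exact DefFun.var _ | exact DefFun.const _ | apply Def.eq | apply Def.mem | apply Def.not | apply Def.and | apply Def.or | apply Def.iff | apply Def.imp | apply Def.exU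 | apply Def.ex | apply Def.all)))
    (fun x _ y y' h1 h2 => hf.val hZ h1 h2)
  obtain ⟨x, hx⟩ := hon γ hγ
  exact hZ.irrefl γ (hb x (hf.dom hZ hx) γ hγ hx)

/-- powersets of sets covered by elements of `κ` -/
theorem InacB.covPow {γ a P : N} (hγ : E γ κ) (hc : Cov E γ a) (hP : ∀ x, E x P ↔ Sub E x a) :
    ∃ δ, E δ κ ∧ Cov E δ P := by
  obtain ⟨Q, hQ⟩ := hZ.exPow γ
  obtain ⟨δ, hδ, hd⟩ := h.2.2.2.2 γ Q hγ hQ
  refine ⟨δ, hδ, hd.trans hZ ?_⟩
  obtain ⟨f, hf, hs⟩ := hc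
  refine Cov.ofRel hZ (R := fun s x => ∀ u, E u x ↔ (E u a ∧ ∃ v, E v s ∧ App E f v u)) (by (repeat' (first | assumption | (apply DefFun.comp; assumption) | apply Cov.df | apply IsLim.df | apply IsSC.df | apply Eqp.df | apply IsBij.df | apply IsCard.df | apply IsV.df | apply Maps.df | apply IsFun.df | apply App.df | apply IsOmega.df | apply IsNat.df | apply IsOrd.df | apply IsTr.df | apply IsSucc.df | apply IsPair.df | apply IsUPair.df | apply IsEmp.df | apply Sub.df | exact DefFun.var _ | exact DefFun.const _ | apply Def.eq | apply Def.mem | apply Def.not | apply Def.and | apply Def.or | apply Def.iff | apply Def.imp | apply Def.exU | apply Def.ex | apply Def.all))) ?_ ?_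
  · intro s _ x x' h1 h2
    exact hZ.ext _ _ fun u => (h1 u).trans (h2 u).symm
  · intro x hx
    obtain ⟨s, hs'⟩ := hZ.sep1 (P := fun v => ∃ u, E u x ∧ App E f v u) (by (repeat' (first | assumption | (apply DefFun.comp; assumption) | apply Cov.df | apply IsLim.df | apply IsSC.df | apply Eqp.df | apply IsBij.df | apply IsCard.df | apply IsV.df | apply Maps.df | apply IsFun.df | apply App.df | apply IsOmega.df | apply IsNat.df | apply IsOrd.df | apply IsTr.df | apply IsSucc.df | apply IsPair.df | apply IsUPair.df | apply IsEmp.df | apply Sub.df | exact DefFun.var _ | exact DefFun.const _ | apply Def.eq | apply Def.mem | apply Def.not | apply Def.and | apply Def.or | apply Def.iff | apply Def.imp | apply Def.exU | apply Def.ex | apply Def.all))) γ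
    refine ⟨s, (hQ s).2 fun v hv => ((hs' v).1 hv).1, fun u => ⟨fun hu => ?_, ?_⟩⟩
    · have hua := (hP x).1 hx u hu
      obtain ⟨v, hv⟩ := hs u hua
      exact ⟨hua, v, (hs' v).2 ⟨hf.dom hZ hv, u, hu, hv⟩, hv⟩
    · rintro ⟨_, v, hv, hvu⟩
      obtain ⟨_, u', hu', hvu'⟩ := (hs' v).1 hv
      rwa [hf.val hZ hvu hvu']

/-- `V_α` is covered by an element of `κ` for `α < κ` -/
theorem InacB.covV : ∀ α, IsOrd E α → E α κ → ∀ v, IsV E α v → ∃ γ, E γ κ ∧ Cov E γ v := by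
  refine IsOrd.ind hZ (P := fun α => E α κ → ∀ v, IsV E α v → ∃ γ, E γ κ ∧ Cov E γ v) (by (repeat' (first | assumption | (apply DefFun.comp; assumption) | apply Cov.df | apply IsLim.df | apply IsSC.df | apply Eqp.df | apply IsBij.df | apply IsCard.df | apply IsV.df | apply Maps.df | apply IsFun.df | apply App.df | apply IsOmega.df | apply IsNat.df | apply IsOrd.df | apply IsTr.df | apply IsSucc.df | apply IsPair.df | apply IsUPair.df | apply IsEmp.df | apply Sub.df | exact DefFun.var _ | exact DefFun.const _ | apply Def.eq | apply Def.mem | apply Def.not | apply Def.and | apply Def.or | apply Def.iff | apply Def.imp | apply Def.exU | apply Def.ex | apply Def.all))) ?_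
  intro α hα ih hακ v hv
  by_contra hn
  have hcov : Cov E v κ := by
    by_contra hc
    exact hn ((h.card hZ).cov_or hZ hc)
  obtain ⟨f, hf, hs⟩ := hcov
  -- for `β < α` the values of `f` at the subsets of `V_β` are bounded
  have h1 : ∀ β, E β α → ∃ b, E b κ ∧ ∀ w x y, IsV E β w → Sub E x w → App E f x y → E y κ → E y b := by
    intro β hβ
    have hβκ : E β κ := h.1.trans hακ hβ
    obtain ⟨w, hw⟩ := hZ.exV (hα.mem hβ)
    obtain ⟨γ, hγ, hγw⟩ := ih β hβ hβκ w hw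
    obtain ⟨P, hP⟩ := hZ.exPow w
    obtain ⟨δ, hδ, hδP⟩ := h.covPow hZ hγ hγw hP
    obtain ⟨b, hb, hbb⟩ := h.bddC hZ hδ hδP (R := fun x y => App E f x y) (by (repeat' (first | assumption | (apply DefFun.comp; assumption) | apply Cov.df | apply IsLim.df | apply IsSC.df | apply Eqp.df | apply IsBij.df | apply IsCard.df | apply IsV.df | apply Maps.df | apply IsFun.df | apply App.df | apply IsOmega.df | apply IsNat.df | apply IsOrd.df | apply IsTr.df | apply IsSucc.df | apply IsPair.df | apply IsUPair.df | apply IsEmp.df | apply Sub.df | exact DefFun.var _ | exact DefFun.const _ | apply Def.eq | apply Def.mem | apply Def.not | apply Def.and | apply Def.or | apply Def.iff | apply Def.imp | apply Def.exU | apply Def.ex | apply Def.all)))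
      (fun x _ y y' h1 h2 => hf.val hZ h1 h2)
    refine ⟨b, hb, fun w' x y hw' hx hxy hy => ?_⟩
    obtain rfl := hw'.uniq hZ (hα.mem hβ) hw
    exact hbb x ((hP x).2 hx) y hy hxy
  obtain ⟨b, hb, hbb⟩ := h.bddR hZ hακ (R := fun β b => E b κ ∧
      (∀ w x y, IsV E β w → Sub E x w → App E f x y → E y κ → E y b) ∧
      ∀ c, E c b → ¬ ∀ w x y, IsV E β w → Sub E x w → App E f x y → E y κ → E y c) (by (repeat' (first | assumption | (apply DefFun.comp; assumption) | apply Cov.df | apply IsLim.df | apply IsSC.df | apply Eqp.df | apply IsBij.df | apply IsCard.df | apply IsV.df | apply Maps.df | apply IsFun.df | apply App.df | apply IsOmega.df | apply IsNat.df | apply IsOrd.df | apply IsTr.df | apply IsSucc.df | apply IsPair.df | apply IsUPair.df | apply IsEmp.df | apply Sub.df | exact DefFun.var _ | exact DefFun.const _ | apply Def.eq | apply Def.mem | apply Def.not | apply Def.and | apply Def.or | apply Def.iff | apply Def.imp | apply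 Def.exU | apply Def.ex | apply Def.all))) (by
    rintro β _ b b' ⟨h2, h3, h4⟩ ⟨h2', h3', h4'⟩
    rcases (h.1.mem h2).tri hZ (h.1.mem h2') with h5 | h5 | h5
    · exact (h4' b h5 h3).elim
    · exact h5
    · exact (h4 b' h5 h3').elim)
  obtain ⟨x, hx⟩ := hs b hb
  obtain ⟨β, w, hβ, hw, hxw⟩ := (hv.mem_iff hZ hα).1 (hf.dom hZ hx)
  obtain ⟨b0, hb0, hb0'⟩ := h1 β hβ
  obtain ⟨b1, hb1o, hb1, hmin⟩ := (h.1.mem hb0).least hZ
    (P := fun b => ∀ w x y, IsV E β w → Sub E x w → App E f x y → E y κ → E y b) (by (repeat' (first | assumption | (apply DefFun.comp; assumption) | apply Cov.df | apply IsLim.df | apply IsSC.df | apply Eqp.df | apply IsBij.df | apply IsCard.df | apply IsV.df | apply Maps.df | apply IsFun.df | apply App.df | apply IsOmega.df | apply IsNat.df | apply IsOrd.df | apply IsTr.df | apply IsSucc.df | apply IsPair.df | apply IsUPair.df | apply IsEmp.df | apply Sub.df | exact DefFun.var _ | exact DefFun.const _ | apply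 Def.eq | apply Def.mem | apply Def.not | apply Def.and | apply Def.or | apply Def.iff | apply Def.imp | apply Def.exU | apply Def.ex | apply Def.all))) hb0'
  have hb1κ : E b1 κ := by
    rcases hb1o.tri hZ (h.1.mem hb0) with h5 | h5 | h5
    · exact h.1.trans hb0 h5
    · rwa [h5]
    · exact (hmin b0 h5 hb0').elim
  have h6 : E b1 b := hbb β hβ b1 hb1κ ⟨hb1κ, hb1, hmin⟩
  have h7 : E b b1 := hb1 w x b hw hxw hx hb
  exact hZ.asymm h6 h7

/-- `V_κ` is a model of ZFC -/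
theorem InacB.isReg {t : N} (ht : IsV E κ t) : IsReg E κ t where
  lim := h.lim hZ
  omega := fun w hw => by
    obtain ⟨w', hw', hwκ⟩ := h.2.1
    rwa [hw.uniq hZ hw']
  isV := ht
  bdd := fun a f ha hf => by
    obtain ⟨β, w, hβ, hw, haw⟩ := (ht.mem_iff hZ h.1).1 ha
    obtain ⟨γ, hγ, hγw⟩ := h.covV hZ β (h.1.mem hβ) hβ w hw
    obtain ⟨b, hb, hbb⟩ := h.bddC hZ hγ (hγw.mono haw) (R := fun x y => App E f x y) (by (repeat' (first | assumption | (apply DefFun.comp; assumption) | apply Cov.df | apply IsLim.df | apply IsSC.df | apply Eqp.df | apply IsBij.df | apply IsCard.df | apply IsV.df | apply Maps.df | apply IsFun.df | apply App.df | apply IsOmega.df | apply IsNat.df | apply IsOrd.df | apply IsTr.df | apply IsSucc.df | apply IsPair.df | apply IsUPair.df | apply IsEmp.df | apply Sub.df | exact DefFun.var _ | exact DefFun.const _ | apply Def.eq | apply Def.mem | apply Def.not | apply Def.and | apply Def.or | apply Def.iff | apply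 Def.imp | apply Def.exU | apply Def.ex | apply Def.all)))
      (fun x _ y y' h1 h2 => hf.1.val hZ h1 h2)
    exact ⟨b, hb, fun x y hxy => hbb x (hf.1.dom hZ hxy) y (hf.2 x y hxy) hxy⟩

end

/-! ### Absoluteness between `V_κ` and the model -/

section
variable (hZ : IsZFC E) {κ t : N} (h : IsReg E κ t)
include hZ h

theorem emb : TransEmb (ER E t) E Subtype.val := transEmb_of_isTr (h.isV.tr hZ h.lim.1)

/-- ordinals of `V_κ` -/
theorem ord_mem_iff {a : N} (ha : IsOrd E a) : E a t ↔ E a κ := h.isV.ord_mem hZ h.lim.1 ha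

theorem maps_abs {f a b : {x : N // E x t}} : Maps (ER E t) f a b ↔ Maps E f.1 a.1 b.1 :=
  (emb hZ h).maps

/-- functions between elements of `V_κ` are elements -/
theorem fun_mem' {f a b : N} (ha : E a t) (hb : E b t) (hf : Maps E f a b) : E f t :=
  h.fun_mem hZ ha ⟨hf.1, fun x y hxy => h.isV.tr hZ h.lim.1 b hb y (hf.2 x y hxy)⟩

theorem cov_abs {a b : {x : N // E x t}} : Cov (ER E t) b a ↔ Cov E b.1 a.1 := by
  have hT := emb hZ h
  constructor
  · rintro ⟨f, hf, hs⟩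
    refine ⟨f.1, hT.isFun.1 hf, fun y hy => ?_⟩
    obtain ⟨x, hx⟩ := hs ⟨y, h.isV.tr hZ h.lim.1 a.1 a.2 y hy⟩ hy
    exact ⟨x.1, hT.app.1 hx⟩
  · rintro ⟨f, hf, hs⟩
    obtain ⟨z, hz⟩ := hZ.exEmp
    have hzt : E z t := by
      refine (ord_mem_iff hZ h hz.ord).2 ?_
      obtain ⟨w, hw⟩ := hZ.exOmega
      exact h.lim.1.trans (h.omega w hw) ((hw.mem_iff hZ).2 hz.nat)
    obtain ⟨g, hg, happ⟩ := exMaps hZ (R := fun x y => App E f x y) (by (repeat' (first | assumption | (apply DefFun.comp; assumption) | apply Cov.df | apply IsLim.df | apply IsSC.df | apply Eqp.df | apply IsBij.df | apply IsCard.df | apply IsV.df | apply Maps.df | apply IsFun.df | apply App.df | apply IsOmega.df | apply IsNat.df | apply IsOrd.df | apply IsTr.df | apply IsSucc.df | apply IsPair.df | apply IsUPair.df | apply IsEmp.df | apply Sub.df | exact DefFun.var _ | exact DefFun.const _ | apply Def.eq | apply Def.mem | apply Def.not | apply Def.and | apply Def.or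 | apply Def.iff | apply Def.imp | apply Def.exU | apply Def.ex | apply Def.all))) (b := b.1) (c := t) hzt
      (fun x _ y y' h1 h2 => hf.val hZ h1 h2)
    refine ⟨⟨g, h.fun_mem hZ b.2 hg⟩, hT.isFun.2 hg.1, fun y hy => ?_⟩
    obtain ⟨x, hx⟩ := hs y.1 hy
    have hxb := hf.dom hZ hx
    have hxt := h.isV.tr hZ h.lim.1 b.1 b.2 x hxb
    exact ⟨⟨x, hxt⟩, hT.app.2 ((happ x hxb y.1).2 (Or.inl ⟨y.2, hx⟩))⟩

theorem card_abs {a : {x : N // E x t}} : IsCard (ER E t) a ↔ IsCard E a.1 := by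
  have hT := emb hZ h
  constructor
  · intro h1
    refine ⟨hT.ord.1 h1.1, fun β f hβ hf hon => ?_⟩
    have hβt := h.isV.tr hZ h.lim.1 a.1 a.2 β hβ
    exact IsCard.not_cov (E := ER E t) (β := ⟨β, hβt⟩) h1 (show E β a.1 from hβ) ((cov_abs hZ h).2 ⟨f, hf, hon⟩)
  · intro h1
    refine ⟨hT.ord.2 h1.1, fun β f hβ hf hon => ?_⟩
    exact h1.not_cov hβ ((cov_abs hZ h).1 ⟨f, hf, hon⟩)

theorem sc_abs {a b : {x : N // E x t}} : IsSC (ER E t) a b ↔ IsSC E a.1 b.1 := by
  unfold IsSC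
  rw [card_abs hZ h]
  refine and_congr Iff.rfl (and_congr Iff.rfl ⟨fun h1 ρ hρ hc => ?_, fun h1 ρ hρ hc => ?_⟩)
  · have hρt := h.isV.tr hZ h.lim.1 b.1 b.2 ρ hρ
    rcases h1 ⟨ρ, hρt⟩ hρ ((card_abs hZ h).2 hc) with h2 | h2
    · exact Or.inl h2
    · exact Or.inr (congrArg Subtype.val h2)
  · rcases h1 ρ.1 hρ ((card_abs hZ h).1 hc) with h2 | h2
    · exact Or.inl h2
    · exact Or.inr (Subtype.ext h2)

theorem bij_abs {f a b : {x : N // E x t}} : IsBij (ER E t) f a b ↔ IsBij E f.1 a.1 b.1 := by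
  have hT := emb hZ h
  unfold IsBij
  rw [maps_abs hZ h]
  refine and_congr Iff.rfl (and_congr ⟨fun h1 x y z hx hy => ?_, fun h1 x y z hx hy => ?_⟩
    ⟨fun h1 y hy => ?_, fun h1 y hy => ?_⟩)
  · obtain ⟨x', z', rfl, rfl⟩ := hT.app_comp hx
    obtain ⟨y', z'', rfl, h2⟩ := hT.app_comp hy
    obtain rfl := Subtype.ext h2
    exact congrArg Subtype.val (h1 x' y' z'' (hT.app.2 hx) (hT.app.2 hy))
  · exact Subtype.ext (h1 x.1 y.1 z.1 (hT.app.1 hx) (hT.app.1 hy))
  · obtain ⟨x, hx⟩ := h1 ⟨y, h.isV.tr hZ h.lim.1 b.1 b.2 y hy⟩ hy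
    exact ⟨x.1, hT.app.1 hx⟩
  · obtain ⟨x, hx⟩ := h1 y.1 hy
    obtain ⟨x', y', rfl, h2⟩ := hT.app_comp hx
    exact ⟨x', hT.app.2 hx⟩

theorem eqp_abs {a b : {x : N // E x t}} : Eqp (ER E t) a b ↔ Eqp E a.1 b.1 := by
  constructor
  · rintro ⟨f, hf⟩
    exact ⟨f.1, (bij_abs hZ h).1 hf⟩
  · rintro ⟨f, hf⟩
    exact ⟨⟨f, fun_mem' hZ h a.2 b.2 hf.1⟩, (bij_abs hZ h).2 hf⟩

/-- GCH in `V_κ` -/
theorem gch_cut (hG : ∀ μ, E μ κ → Pool.Agent.W_61ad90.GCHAt E μ) : GCH (ER E t) := by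
  have hT := emb hZ h
  refine gch_of_cov (h.zfc hZ) fun w μ ν P hw hμ hwμ hν hP => ?_
  have hμ' := (card_abs hZ h).1 hμ
  refine (cov_abs hZ h).2 (hG μ.1 ((ord_mem_iff hZ h hμ'.1).1 μ.2) w.1 ν.1 P.1 (hT.omega.1 hw) hμ' ?_
    ((sc_abs hZ h).1 hν) fun x => ⟨fun hx => ?_, fun hx => ?_⟩)
  · rcases hwμ with h1 | h1
    · exact Or.inl (congrArg Subtype.val h1)
    · exact Or.inr h1
  · exact hT.sub.1 ((hP ⟨x, h.isV.tr hZ h.lim.1 P.1 P.2 x hx⟩).1 hx)
  · exact (hP ⟨x, h.isV.subclosed hZ h.lim.1 μ.2 hx⟩).2 (hT.sub.2 hx)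

/-- singular cardinals of uncountable cofinality -/
theorem sing_up {k : {x : N // E x t}} (hk : PPR.IsSingUnc (ER E t) k) : PPR.IsSingUnc E k.1 := by
  have hT := emb hZ h
  obtain ⟨h1, ⟨w, hw, hwk⟩, ⟨i, f, hi, hf, hc⟩, h4⟩ := hk
  refine ⟨(card_abs hZ h).1 h1, ⟨w.1, hT.omega.1 hw, hwk⟩, ⟨i.1, f.1, hi, hT.maps.1 hf, ?_⟩, ?_⟩
  · intro x hx
    obtain ⟨a, y, h5, h6⟩ := hc ⟨x, h.isV.tr hZ h.lim.1 k.1 k.2 x hx⟩ hx
    exact ⟨a.1, y.1, hT.app.1 h5, h6⟩
  · intro w' f' hw' hf'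
    obtain rfl := hw'.uniq hZ (hT.omega.1 hw)
    obtain ⟨x, hx, hb⟩ := h4 w ⟨f', fun_mem' hZ h w.2 k.2 hf'⟩ hw (hT.maps.2 hf')
    refine ⟨x.1, hx, fun n y hny => ?_⟩
    obtain ⟨n', y', rfl, rfl⟩ := hT.app_comp (f := ⟨f', fun_mem' hZ h w.2 k.2 hf'⟩) hny
    exact hb n' y' (hT.app.2 hny)

/-- the relation in `V_κ` -/
theorem arrow_down {k l : {x : N // E x t}} (ha : PPR.Arrow E k.1 l.1) : PPR.Arrow (ER E t) k l := by
  have hT := emb hZ h
  intro D
  obtain ⟨A, B, h1, h2, h3, h4, h5⟩ := ha D.1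
  have hA : E A t := h.isV.subclosed hZ h.lim.1 k.2 h1
  have hB : E B t := h.isV.subclosed hZ h.lim.1 l.2 h3
  refine ⟨⟨A, hA⟩, ⟨B, hB⟩, hT.sub.2 h1, (eqp_abs hZ h).2 h2, hT.sub.2 h3, (eqp_abs hZ h).2 h4, ?_⟩
  rcases h5 with h5 | h5
  · exact Or.inl fun a b ha hb => hT.app.2 (h5 a.1 b.1 ha hb)
  · exact Or.inr fun a b ha hb hab => h5 a.1 b.1 ha hb (hT.app.1 hab)

theorem holds_cut (hH : ∀ k l, E k κ → E l κ → PPR.IsSingUnc E k → IsSC E k l → PPR.Arrow E k l) :
    PPR.HoldsAll (ER E t) := by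
  intro k l hk hl
  have hk' := sing_up hZ h hk
  have hl' := (sc_abs hZ h).1 hl
  exact arrow_down hZ h (hH k.1 l.1 ((ord_mem_iff hZ h hk'.1.1).1 k.2) ((ord_mem_iff hZ h hl'.1.1).1 l.2)
    hk' hl')

end

/-- the cut -/
theorem cut (hZ : IsZFC E) (h : LocB E) : ∃ t, IsZFC (ER E t) ∧ GCH (ER E t) ∧ PPR.HoldsAll (ER E t) := by
  obtain ⟨κ, h1, h2, h3⟩ := h
  obtain ⟨t, ht⟩ := hZ.exV h1.1
  have h4 := h1.isReg hZ ht
  exact ⟨t, h4.zfc hZ, gch_cut hZ h4 h2, holds_cut hZ h4 h3⟩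

end F61BM
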