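import Pool.Agent.W_MP_f61043B_h40.InacG

set_option autoImplicit false

/-!
# MP_f61043_lc, part B : the polarized relation holds in the model
-/

universe u

open Cardinal Set HESR IM.BSet SQR
open IM (BSet)

namespace F61BM

open BVM F61M F61B

/-! ### The relation for one partition -/

/-- the relation for the partition `D` -/
def ArrowAt {T : Type*} (E : T → T → Prop) (D k l : T) : Prop :=
  ∃ A B, Sub E A k ∧ Eqp E k A ∧ Sub E B l ∧ Eqp E k B ∧
    ((∀ a b, E a A → E b B → App E D a b) ∨ ∀ a b, E a A → E b B → ¬ App E D a b)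

theorem ArrowAt.fo {k : ℕ} (a b c : Fin k) : FO.{u} (fun _ E v => ArrowAt E (v a) (v b) (v c)) := by
  unfold ArrowAt; (repeat' (first | exact Eqp.fo _ _ | exact Sub.fo _ _ | exact App.fo _ _ _ | exact FO.mem _ _ | apply FO.not | apply FO.or | apply FO.and | apply FO.imp | apply FO.ex | apply FO.all))

/-- a subset `A` of a cardinal `k` which covers `k` has the cardinality of `k` -/
theorem eqp_of_sub {N : Type u} {E : N → N → Prop} (hZ : IsZFC E) {k A : N} (hk : IsOrd E k)
    (hA : Sub E A k) (hc : Cov E A k) : Eqp E k A := by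
  obtain ⟨f, hf, hs⟩ := hc
  refine eqp_of_inj hZ (R := fun y x => E x A ∧ App E f x y ∧ ∀ z, E z x → E z A → ¬ App E f z y)
    (S := fun x y => E x A ∧ y = x) (by (repeat' (first | apply App.df | exact DefFun.var _ | exact DefFun.const _ | apply Def.eq | apply Def.mem | apply Def.not | apply Def.and | apply Def.imp | apply Def.all))) (by (repeat' (first | exact DefFun.var _ | exact DefFun.const _ | apply Def.eq | apply Def.mem | apply Def.and))) ?_ ?_ ?_ ?_ ?_ ?_
  · intro y hy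
    obtain ⟨x, hx⟩ := hs y hy
    have hxA := hf.dom hZ hx
    obtain ⟨x', hx', ⟨h3, h4⟩, h5⟩ := (hk.mem (hA x hxA)).least hZ (P := fun x => E x A ∧ App E f x y)
      (by (repeat' (first | apply App.df | exact DefFun.var _ | exact DefFun.const _ | apply Def.mem | apply Def.and))) ⟨hxA, hx⟩
    exact ⟨x', h3, h3, h4, fun z hz hzA hzy => h5 z hz ⟨hzA, hzy⟩⟩
  · rintro y x x' ⟨h2, h3, h4⟩ ⟨h2', h3', h4'⟩
    rcases (hk.mem (hA x h2)).tri hZ (hk.mem (hA x' h2')) with h7 | h7 | h7
    · exact (h4' x h7 h2 h3).elim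
    · exact h7
    · exact (h4 x' h7 h2' h3').elim
  · rintro y y' x ⟨_, h3, _⟩ ⟨_, h5, _⟩
    exact hf.val hZ h3 h5
  · intro x hx
    exact ⟨x, hA x hx, hx, rfl⟩
  · rintro x y y' ⟨_, h3⟩ ⟨_, h5⟩
    rw [h3, h5]
  · rintro x x' y ⟨_, h3⟩ ⟨_, h5⟩
    rw [← h3, h5]

section
variable {K D : Type u} [LinearOrder K] [WellFoundedLT K] [CompleteBooleanAlgebra D]

/-- case 1: an image of a smaller initial segment is not a cardinal -/
theorem not_card_G {i j : K} (hj : j < i) {G : K → K → D} (hG : SV G)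
    (hc : ∀ y < i, (⨆ a : Iio j, G a y) = ⊤)
    {lam : D → Prop} (hl : IsUF lam) : ¬ IsCard (E hl) (val hl (chk i : BSet D)) := by
  intro hcd
  have hcv : Pool.Agent.W_61ad90.CovN (D := D) (A := Iio j) (fun a y => G a.1 y) i :=
    ⟨fun a x y hxy => hG a.1 x y hxy, hc⟩
  have h := Pool.Agent.W_61ad90.cov_of_covN (A := Iio j) (j := fun a => (chk a.1 : BSet D))
    (fun a a' h => beq_chk_ne fun h' => h (Subtype.ext h')) (i := i) ⟨_, hcv⟩ hl
  rw [← chk_eq j] at h
  exact hcd.not_cov (E_chk_of hj) h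

/-- `l` is not covered by `i` -/
theorem not_cov_G {i l : K} (hb : BddIn (D := D) i l) {lam : D → Prop} (hl : IsUF lam) :
    ¬ Cov (E hl) (val hl (chk i : BSet D)) (val hl (chk l)) := by
  intro hc
  have hT : TD1 (D := D) fun lam hl f => IsFun (E hl) f (val hl (chk i)) ∧
      ∀ y, E hl y (val hl (chk l)) → ∃ x, App (E hl) f x y := by
    refine TD.and (TD.isFun (Tm.var 0) (Tm.const _)) ?_
    refine TD.all (P := fun lam hl y v => E hl y (val hl (chk l)) → ∃ x, App (E hl) (v 0) x y) ?_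
    refine TD.imp (TD.mem (Tm.var 0) (Tm.const _)) ?_
    exact TD.ex (P := fun lam hl x v => App (E hl) (v 1) x (v 0))
      (TD.app (Tm.var 2) (Tm.var 0) (Tm.var 1))
  obtain ⟨f, hf⟩ := hc
  obtain ⟨F, c, hlc, hc0, hF⟩ := exists_forced hT hf
  obtain ⟨b, z, hb0, hbc, hz, hbb⟩ := hb (fun a x => c ⊓ apw F (chk a) (chk x))
    (fun a x y hxy => apw_sv (fun lam hl hlam => (hF lam hl hlam).1) hxy) c hc0
  apply hb0
  rw [eq_bot_iff_ultra]
  intro lam hl hlam
  have h1 := hF lam hl (hl.mono hbc hlam)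
  obtain ⟨x, hx⟩ := h1.2 _ (E_chk_of hz)
  have h2 := exA_chk.1 ⟨x, h1.1.dom (zfc hl) hx, hx⟩
  refine hl.bot (hl.mono ?_ (hl.inf hlam h2))
  rw [inf_iSup_eq]
  refine iSup_le fun v => ?_
  have h3 := hbb v.1 v.2 z le_rfl hz
  rw [← inf_assoc, inf_eq_left.2 hbc] at h3
  exact h3.le

/-- `l` is the successor cardinal of `i` -/
theorem isSC_G {i l : K} (hseg : ∀ x < l, ∃ e : K → K, ∀ y < x, ∃ z < i, e z = y)
    (hb : BddIn (D := D) i l) {lam : D → Prop} (hl : IsUF lam) :
    IsSC (E hl) (val hl (chk i : BSet D)) (val hl (chk l)) := by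
  refine IsSC.ofHart (zfc hl) (isOrd_chk _) (IsHart.ofMid (zfc hl) (isOrd_chk _) ?_ (not_cov_G hb hl))
  refine forall_chk (P := fun lam hl x => Cov (E hl) (val hl (chk i)) x)
    (TD.cov1 (Tm.const _) (Tm.var 0)) (a := ⊤) ?_ hl.top
  intro x hx lam hl _
  classical
  obtain ⟨e, he⟩ := hseg x hx
  have hcv : Pool.Agent.W_61ad90.CovN (D := D) (A := Iio i)
      (fun a y => if e a.1 = y then (⊤ : D) else ⊥) x := by
    refine ⟨fun a y z hyz => ?_, fun y hy => ?_⟩
    · change (if e a.1 = y then (⊤ : D) else ⊥) ⊓ (if e a.1 = z then (⊤ : D) else ⊥) = ⊥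
      by_cases h1 : e a.1 = y
      · rw [if_neg (fun h2 : e a.1 = z => hyz (h1.symm.trans h2)), inf_bot_eq]
      · rw [if_neg h1, bot_inf_eq]
    · obtain ⟨a, ha, hay⟩ := he y hy
      rw [eq_top_iff]
      refine le_iSup_of_le (⟨a, ha⟩ : Iio i) ?_
      change ⊤ ≤ (if e a = y then (⊤ : D) else ⊥)
      rw [if_pos hay]
  have h := Pool.Agent.W_61ad90.cov_of_covN (A := Iio i) (j := fun a => (chk a.1 : BSet D))
    (fun a a' h => beq_chk_ne fun h' => h (Subtype.ext h')) (i := x) ⟨_, hcv⟩ hl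
  rw [← chk_eq i] at h
  exact h

/-- the relation -/
theorem arrow_G {i l : K} (hr : RelP K D i l) {lam : D → Prop} (hl : IsUF lam)
    (hk : IsCard (E hl) (val hl (chk i : BSet D))) :
    PPR.Arrow (E hl) (val hl (chk i : BSet D)) (val hl (chk l)) := by
  intro C0
  by_contra hcon
  have hT : TD1 (D := D) fun lam hl C => IsCard (E hl) (val hl (chk i)) ∧
      ¬ ArrowAt (E hl) C (val hl (chk i)) (val hl (chk l)) := by
    refine TD.and (TD.fo1 (R := fun _ E a => IsCard E a) (IsCard.fo 0) (Tm.const _)) (TD.not ?_)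
    exact TD.fo3 (R := fun _ E a b c => ArrowAt E a b c) (ArrowAt.fo 0 1 2) (Tm.var 0) (Tm.const _)
      (Tm.const _)
  obtain ⟨C, c, _, hc0, hC⟩ := exists_forced hT (z := C0) ⟨hk, hcon⟩
  obtain ⟨b, aV, f, v, hb0, hbc, hfl, hfi, hom, hbig⟩ := hr (fun x α => apw C (chk α) (chk x)) c hc0
  let A : BSet D := mk (Iio i) (fun α => chk α.1) (fun α => aV α.1)
  let B : BSet D := nm (ι := Iio i) (fun x => chk (f x.1))
  obtain ⟨lam, hl, hlam⟩ := exists_isUF hb0
  obtain ⟨hk, hno⟩ := hC lam hl (hl.mono hbc hlam)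
  refine hno ⟨val hl A, val hl B, ?_, ?_, ?_, ?_, ?_⟩
  · refine forall_mk (P := fun lam hl z => E hl z (val hl (chk i))) (TD.mem (Tm.var 0) (Tm.const _))
      (a := ⊤) ?_ hl.top
    intro a lam hl _ _
    exact E_chk_of a.2
  · have hA : Sub (E hl) (val hl A) (val hl (chk i)) := by
      refine forall_mk (P := fun lam hl z => E hl z (val hl (chk i))) (TD.mem (Tm.var 0) (Tm.const _))
        (a := ⊤) ?_ hl.top
      intro a lam hl _ _
      exact E_chk_of a.2
    refine eqp_of_sub (zfc hl) (isOrd_chk _) hA ?_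
    by_contra hcv
    obtain ⟨β, hβ, hβA⟩ := hk.cov_or (zfc hl) hcv
    have key : ∀ β, E hl β (val hl (chk i)) → ¬ Cov (E hl) β (val hl A) := by
      refine forall_chk (P := fun lam hl β => ¬ Cov (E hl) β (val hl A))
        (TD.not (TD.cov1 (Tm.var 0) (Tm.const _))) (a := b) ?_ hlam
      intro j hj lam hl hlam hcj
      have hT : TD1 (D := D) fun lam hl g => IsFun (E hl) g (val hl (chk j)) ∧
          ∀ y, E hl y (val hl A) → ∃ x, App (E hl) g x y := by
        refine TD.and (TD.isFun (Tm.var 0) (Tm.const _)) ?_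
        refine TD.all (P := fun lam hl y v => E hl y (val hl A) → ∃ x, App (E hl) (v 0) x y) ?_
        refine TD.imp (TD.mem (Tm.var 0) (Tm.const _)) ?_
        exact TD.ex (P := fun lam hl x v => App (E hl) (v 1) x (v 0))
          (TD.app (Tm.var 2) (Tm.var 0) (Tm.var 1))
      obtain ⟨g, hg⟩ := hcj
      obtain ⟨G, c1, hlc, _, hG⟩ := exists_forced hT hg
      have hc1 : c1 ⊓ b ≠ ⊥ := fun h0 => hl.bot (h0 ▸ hl.inf hlc hlam)
      obtain ⟨b', α, hb'0, hb'c, hα, hbα, hbF⟩ := hbig j hj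
        (fun a x => c1 ⊓ apw G (chk a) (chk x))
        (fun a x y hxy => apw_sv (fun lam hl hlam => (hG lam hl hlam).1) hxy) (c1 ⊓ b) hc1 inf_le_right
      apply hb'0
      rw [eq_bot_iff_ultra]
      intro lam hl hlam
      have h1 := hG lam hl (hl.mono (hb'c.trans inf_le_left) hlam)
      have h2 : E hl (val hl (chk α)) (val hl A) :=
        E_mk_of (f := fun α : Iio i => (chk α.1 : BSet D)) (w := fun α => aV α.1) ⟨α, hα⟩ (hl.mono hbα hlam)
      obtain ⟨x, hx⟩ := h1.2 _ h2
      have h3 := exA_chk.1 ⟨x, h1.1.dom (zfc hl) hx, hx⟩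
      refine hl.bot (hl.mono ?_ (hl.inf hlam h3))
      rw [inf_iSup_eq]
      refine iSup_le fun v => ?_
      have h4 := hbF v.1 v.2
      rw [← inf_assoc, inf_eq_left.2 (hb'c.trans inf_le_left)] at h4
      exact h4.le
    exact key β hβ hβA
  · refine forall_nm (P := fun lam hl z => E hl z (val hl (chk l))) (TD.mem (Tm.var 0) (Tm.const _))
      (a := ⊤) ?_ hl.top
    intro a lam hl _
    exact E_chk_of (hfl a.1 a.2)
  · have h1 := isBij_fnB (hl := hl) (f := fun x : Iio i => (chk x.1 : BSet D))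
      (g := fun x : Iio i => chk (f x.1)) (fun a a' h => beq_chk_ne fun h' => h (Subtype.ext h'))
      (fun a a' h => beq_chk_ne fun h' => h (Subtype.ext (hfi a.1 a.2 a'.1 a'.2 h')))
    rw [← chk_eq i] at h1
    exact ⟨_, h1⟩
  · cases v with
    | true =>
      left
      have key : ∀ a, E hl a (val hl A) → ∀ y, E hl y (val hl B) → App (E hl) (val hl C) a y := by
        refine forall_mk (P := fun lam hl a => ∀ y, E hl y (val hl B) → App (E hl) (val hl C) a y) ?_
          (a := b) ?_ hlam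
        · exact TD.all (P := fun lam hl y v => E hl y (val hl B) → App (E hl) (val hl C) (v 0) y)
            (TD.imp (TD.mem (Tm.var 0) (Tm.const _)) (TD.app (Tm.const _) (Tm.var 1) (Tm.var 0)))
        · intro α lam hl hlam hα
          refine forall_nm (P := fun lam hl y => App (E hl) (val hl C) (val hl (chk α.1)) y)
            (TD.app (Tm.const _) (Tm.const _) (Tm.var 0)) (a := b ⊓ aV α.1) ?_ (hl.inf hlam hα)
          intro x lam hl h1
          exact apw_iff.2 (hl.mono (hom x.1 x.2 α.1 α.2) h1)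
      exact fun a y ha hy => key a ha y hy
    | false =>
      right
      have key : ∀ a, E hl a (val hl A) → ∀ y, E hl y (val hl B) → ¬ App (E hl) (val hl C) a y := by
        refine forall_mk (P := fun lam hl a => ∀ y, E hl y (val hl B) → ¬ App (E hl) (val hl C) a y) ?_
          (a := b) ?_ hlam
        · exact TD.all (P := fun lam hl y v => E hl y (val hl B) → ¬ App (E hl) (val hl C) (v 0) y)
            (TD.imp (TD.mem (Tm.var 0) (Tm.const _)) (TD.not (TD.app (Tm.const _) (Tm.var 1) (Tm.var 0))))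
        · intro α lam hl hlam hα
          refine forall_nm (P := fun lam hl y => ¬ App (E hl) (val hl C) (val hl (chk α.1)) y)
            (TD.not (TD.app (Tm.const _) (Tm.const _) (Tm.var 0))) (a := b ⊓ aV α.1) ?_ (hl.inf hlam hα)
          intro x lam hl h1 h2
          exact hl.compl_iff.1 (hl.mono (hom x.1 x.2 α.1 α.2) h1) (apw_iff.1 h2)
      exact fun a y ha hy => key a ha y hy

/-- the relation holds below `K` -/
theorem holds_G (h : CoreG K D) {lam : D → Prop} (hl : IsUF lam) : ∀ k, E hl k (val hl (chkT K)) →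
    ∀ l, PPR.IsSingUnc (E hl) k → IsSC (E hl) k l → PPR.Arrow (E hl) k l := by
  refine forall_chkT (P := fun lam hl k => ∀ l, PPR.IsSingUnc (E hl) k → IsSC (E hl) k l →
    PPR.Arrow (E hl) k l) ?_ (a := ⊤) ?_ hl.top
  · refine TD.all (P := fun lam hl l v => PPR.IsSingUnc (E hl) (v 0) → IsSC (E hl) (v 0) l →
      PPR.Arrow (E hl) (v 0) l) ?_
    refine TD.imp (TD.fo1 (R := fun _ E a => PPR.IsSingUnc E a) (PPR.IsSingUnc.fo 0) (Tm.var 1))
      (TD.imp ?_ ?_)
    · exact TD.fo2 (R := fun _ E a b => IsSC E a b) (IsSC.fo 0 1) (Tm.var 1) (Tm.var 0)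
    · exact TD.fo2 (R := fun _ E a b => PPR.Arrow E a b) (PPR.Arrow.fo 0 1) (Tm.var 1) (Tm.var 0)
  · intro i lam hl _ l hs hsc
    rcases h.cls i with ⟨j, hj, G, hG, hc⟩ | ⟨f, hf, hcof⟩ | h1 | ⟨l', hil, hseg, hb, hr⟩
    · exact (not_card_G hj hG hc hl hs.1).elim
    · exact (not_unc_i hf hcof hl hs).elim
    · exact (not_sing_i h1 hl hs).elim
    · rw [hsc.uniq (zfc hl) (isSC_G hseg hb hl)]
      exact arrow_G hr hl hs.1

/-- all the properties which are used for the cut -/
theorem loc_G (h : CoreG K D) {lam : D → Prop} (hl : IsUF lam) : LocB (E hl) :=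
  ⟨_, inac_G h hl, gchAt_G h hl, fun k l hk _ hs hsc => holds_G h hl k hk l hs hsc⟩

end

end F61BM
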