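import Pool.Agent.W_315f31_h40.Final0
import Pool.Agent.W_MP_f61043B_h40.Cut
import Pool.Agent.W_MP_f61043B_h40.RelG

/-!
# MP_f61043_lc, part B : the countable well-founded model, from the properties `CoreG` of the forcing
-/

set_option autoImplicit false

universe u

open Cardinal Set HESR IM.BSet SQR
open IM (BSet)

namespace F61BM

open BVM F61B

/-- The properties of the forcing give a countable well-founded model of ZFC and GCH in which the
polarized relation holds for all singular cardinals of uncountable cofinality. -/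
theorem model_of_coreG {K D : Type u} [LinearOrder K] [WellFoundedLT K]
    [CompleteBooleanAlgebra D] (h : CoreG K D) (hD : (⊤ : D) ≠ ⊥) :
    ∃ (M : Type (u + 1)) (E : M → M → Prop), Countable M ∧ WellFounded E ∧ HESR.IsZFC E ∧
      SQR.GCH E ∧ PPR.HoldsAll E := by
  have : Nontrivial D := ⟨⊤, ⊥, hD⟩
  obtain ⟨N, hNc, _, hW, hN⟩ := exists_names_closed (D := D) (fun x _ => x) omB
  obtain ⟨lam, hl, _, hwf⟩ := exists_wf (D := D) (a := ⊤) top_ne_bot N hNc
  have hM : Countable (Mdl hl N) := by
    have h1 : Countable N := hNc.to_subtype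
    have h2 : Function.Surjective fun z : N => (⟨val hl z.1, z.1, z.2, rfl⟩ : Mdl hl N) := by
      rintro ⟨x, z, hz, rfl⟩
      exact ⟨⟨z, hz⟩, rfl⟩
    exact h2.countable
  have hZ := zfc_mdl hl N hN
  have hL : LocB (EM hl N) := (fo_transfer hN (LocB.fo (k := 0)) Fin.elim0).2 (loc_G h hl)
  obtain ⟨t, h1, h2, h3⟩ := cut hZ hL
  exact ⟨{x : Mdl hl N // EM hl N x t}, ER (EM hl N) t, inferInstance, InvImage.wf Subtype.val hwf,
    h1, h2, h3⟩

end F61BM
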