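import Pool.Agent.W_MP_f61043_h40.Stmt
import Pool.Agent.W_61ad90_h32.GCHX
import Pool.Agent.W_MP_83aea7_lc.VZFC

set_option autoImplicit false

/-!
# MP_f61043_lc, part B : the statement

The polarized relation holds for all singular cardinals of uncountable cofinality.
-/

namespace PPR
open HESR SQR
universe u

/-- for all singular cardinals `k` of uncountable cofinality the relation `(k ; k⁺) → (k k ; k k)^{1,1}` holds -/
def HoldsAll {T : Type u} (E : T → T → Prop) : Prop :=
  ∀ k l, IsSingUnc E k → IsSC E k l → Arrow E k l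

theorem HoldsAll.fo {k : ℕ} : FO.{u} (fun _ E (_ : Fin k → _) => HoldsAll E) := by
  unfold HoldsAll; (repeat' (first | exact IsSingUnc.fo _ | exact IsSC.fo _ _ | exact Arrow.fo _ _ | apply FO.imp | apply FO.all))

end PPR

namespace F61BM
open HESR SQR
universe u

/-- `κ` is a regular strong limit cardinal above `ω` -/
def InacB {T : Type u} (E : T → T → Prop) (κ : T) : Prop :=
  IsOrd E κ ∧ (∃ w, IsOmega E w ∧ E w κ) ∧ (∀ x, E x κ → ∃ y, E y κ ∧ E x y) ∧
    (∀ x f, E x κ → Maps E f x κ → ∃ β, E β κ ∧ ∀ a y, App E f a y → E y β) ∧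
    ∀ x P, E x κ → (∀ y, E y P ↔ Sub E y x) → ∃ γ, E γ κ ∧ Cov E γ P

/-- the properties of the extension which are used for the cut at `κ` -/
def LocB {T : Type u} (E : T → T → Prop) : Prop :=
  ∃ κ, InacB E κ ∧ (∀ μ, E μ κ → Pool.Agent.W_61ad90.GCHAt E μ) ∧
    ∀ k l, E k κ → E l κ → PPR.IsSingUnc E k → IsSC E k l → PPR.Arrow E k l

theorem InacB.fo {k : ℕ} (a : Fin k) : FO.{u} (fun _ E v => InacB E (v a)) := by
  unfold InacB; (repeat' (first | exact IsOrd.fo _ | exact IsOmega.fo _ | exact Maps.fo _ _ _ | exact App.fo _ _ _ | exact Sub.fo _ _ | exact Cov.fo _ _ | exact FO.mem _ _ | apply FO.iff | apply FO.and | apply FO.imp | apply FO.ex | apply FO.all))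

theorem LocB.fo {k : ℕ} : FO.{u} (fun _ E (_ : Fin k → _) => LocB E) := by
  unfold LocB; (repeat' (first | exact InacB.fo _ | exact Pool.Agent.W_61ad90.GCHAt.fo _ | exact PPR.IsSingUnc.fo _ | exact IsSC.fo _ _ | exact PPR.Arrow.fo _ _ | exact FO.mem _ _ | apply FO.and | apply FO.imp | apply FO.ex | apply FO.all))

end F61BM
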