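import Pool.Agent.W_MP_f61043B_lc.Core
import Pool.Agent.W_MP_f61043_h40.LeastF
import Pool.Agent.W_MP_f61043B_h40.StmtB

set_option autoImplicit false

/-!
# MP_f61043_lc, part B : the cardinals of the model

In the quotients of the Boolean-valued sets over an algebra with the properties `CoreG` the name `chkT K` is
a regular strong limit cardinal, and GCH holds below it.
-/

universe u

open Cardinal Set HESR IM.BSet SQR
open IM (BSet)

namespace F61BM

open BVM F61M F61B

section
variable {K D : Type u} [LinearOrder K] [WellFoundedLT K] [CompleteBooleanAlgebra D]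

/-- a well-order of smaller cardinality is an element -/
theorem chkT_mem {B : Type u} [LinearOrder B] [WellFoundedLT B] (h : #B < #K)
    {lam : D → Prop} (hl : IsUF lam) : E hl (val hl (chkT B : BSet D)) (val hl (chkT K)) := by
  have hlt : Ordinal.type (α := B) (· < ·) < Ordinal.type (α := K) (· < ·) := by
    by_contra hc
    have h1 := Ordinal.card_le_card (not_lt.1 hc)
    rw [Ordinal.card_type, Ordinal.card_type] at h1
    exact absurd h (not_lt.2 h1)
  obtain ⟨p⟩ := Ordinal.type_lt_iff.1 hlt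
  have h1 : val hl (chkT B : BSet D) = val hl (chk p.top) := by
    refine (zfc hl).ext _ _ fun z => ⟨?_, ?_⟩
    · revert z
      refine forall_chkT (P := fun lam hl z => E hl z (val hl (chk p.top)))
        (TD.mem (Tm.var 0) (Tm.const _)) (a := ⊤) ?_ hl.top
      intro t lam hl _
      rw [val_chk_initial (fun t => p t) (fun s t hst => p.map_rel_iff.2 hst) (fun t s' hs' => by
          obtain ⟨s, rfl⟩ := p.mem_range_of_rel hs'
          exact ⟨s, p.map_rel_iff.1 hs', rfl⟩) t hl]
      exact E_chk_of (p.lt_top t)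
    · revert z
      refine forall_chk (P := fun lam hl z => E hl z (val hl (chkT B)))
        (TD.mem (Tm.var 0) (Tm.const _)) (a := ⊤) ?_ hl.top
      intro s' hs' lam hl _
      obtain ⟨s, rfl⟩ := p.mem_range_iff_rel.2 hs'
      rw [← val_chk_initial (fun t => p t) (fun s t hst => p.map_rel_iff.2 hst) (fun t s' hs' => by
          obtain ⟨s, rfl⟩ := p.mem_range_of_rel hs'
          exact ⟨s, p.map_rel_iff.1 hs', rfl⟩) s hl]
      exact E_chkT _
  rw [h1]
  exact E_chkT _

/-- a strictly increasing sequence with a bound -/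
theorem exists_seqG (h : CoreG K D) : ∃ (f : ℕ → K) (x : K), (∀ n, f n < f (n + 1)) ∧ ∀ n, f n < x := by
  have hlt : Ordinal.type (α := ULift.{u} ℕ) (· < ·) < Ordinal.type (α := K) (· < ·) := by
    by_contra hc
    have h1 := Ordinal.card_le_card (not_lt.1 hc)
    rw [Ordinal.card_type, Ordinal.card_type] at h1
    have h2 := h.unc
    rw [Cardinal.mk_uLift, Cardinal.mk_nat, Cardinal.lift_aleph0] at h1
    exact absurd h2 (not_lt.2 h1)
  obtain ⟨p⟩ := Ordinal.type_lt_iff.1 hlt
  refine ⟨fun n => p ⟨n⟩, p.top, fun n => p.map_rel_iff.2 ?_, fun n => p.lt_top _⟩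
  exact ULift.down_lt.1 (Nat.lt_succ_self n)

/-- every element is below an element with infinitely many predecessors -/
theorem exists_inf (h : CoreG K D) (i : K) : ∃ j, i ≤ j ∧ Infinite (Iio j) := by
  obtain ⟨f, x, hf, hx⟩ := exists_seqG h
  refine ⟨max i x, le_max_left _ _, ?_⟩
  have hf' : StrictMono f := strictMono_nat_of_lt_succ hf
  exact Infinite.of_injective (fun n : ℕ => (⟨f n, lt_of_lt_of_le (hx n) (le_max_right _ _)⟩ : Iio (max i x)))
    fun m n hmn => hf'.injective (congrArg Subtype.val hmn)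

/-- no greatest element -/
theorem exists_gtG (h : CoreG K D) (i : K) : ∃ j, i < j := by
  by_contra hc
  push Not at hc
  obtain ⟨j, hj, hinf⟩ := exists_inf h i
  obtain rfl : j = i := le_antisymm (hc j) hj
  have h1 : #K ≤ #(Iio j) + 1 := by
    have h2 : (univ : Set K) = insert j (Iio j) := by
      ext x
      simp only [mem_univ, mem_insert_iff, mem_Iio, true_iff]
      exact (hc x).eq_or_lt
    have h3 : #K = #(insert j (Iio j) : Set K) := by rw [← h2, Cardinal.mk_univ]
    rw [h3]
    exact Cardinal.mk_insert_le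
  have h4 : #(Iio j) + 1 = #(Iio j) := Cardinal.add_one_eq (Cardinal.aleph0_le_mk _)
  rw [h4] at h1
  exact absurd (h.card_lt j) (not_lt.2 h1)

/-- `ω` is an element of `K` -/
theorem omega_mem_G (h : CoreG K D) {lam : D → Prop} (hl : IsUF lam) :
    E hl (val hl (omB : BSet D)) (val hl (chkT K)) := by
  obtain ⟨f, x, hf, hx⟩ := exists_seqG h
  have h1 : Sub (E hl) (val hl (omB : BSet D)) (val hl (chk x)) := by
    refine forall_omB (P := fun lam hl z => E hl z (val hl (chk x)))
      (TD.mem (Tm.var 0) (Tm.const _)) (a := ⊤) ?_ hl.top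
    intro n lam hl _
    exact (isOrd_chk _).trans (E_chk_of (hx _)) (natB_mem hf hl n)
  rcases (isOmega_omB.1.sub_iff (zfc hl) (isOrd_chk _)).1 h1 with h2 | h2
  · exact isOrd_chkT.trans (E_chkT x) h2
  · rw [h2]
    exact E_chkT x

/-- functions from the elements of `K` to `K` are bounded -/
theorem reg_G (h : CoreG K D) (j : K) {lam : D → Prop} (hl : IsUF lam) {f : X hl}
    (hf : Maps (E hl) f (val hl (chk j)) (val hl (chkT K))) :
    ∃ β, E hl β (val hl (chkT K)) ∧ ∀ a y, App (E hl) f a y → E hl y β := by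
  by_contra hcon
  have hT1 : TD1 (D := D) fun lam hl f => Maps (E hl) f (val hl (chk j)) (val hl (chkT K)) ∧
      ¬ ∃ β, E hl β (val hl (chkT K)) ∧ ∀ a y, App (E hl) f a y → E hl y β := by
    refine TD.and (TD.maps (Tm.var 0) (Tm.const _) (Tm.const _)) (TD.not ?_)
    refine TD.ex (P := fun lam hl β v => E hl β (val hl (chkT K)) ∧
      ∀ a y, App (E hl) (v 0) a y → E hl y β) ?_
    refine TD.and (TD.mem (Tm.var 0) (Tm.const _)) ?_
    refine TD.all (P := fun lam hl a v => ∀ y, App (E hl) (v 1) a y → E hl y (v 0)) ?_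
    exact TD.all (P := fun lam hl y v => App (E hl) (v 2) (v 0) y → E hl y (v 1))
      (TD.imp (TD.app (Tm.var 3) (Tm.var 1) (Tm.var 0)) (TD.mem (Tm.var 0) (Tm.var 2)))
  obtain ⟨F, c, _, hc0, hF⟩ := exists_forced hT1 ⟨hf, hcon⟩
  obtain ⟨b, z, hb0, hbc, hb⟩ := h.reg j (fun a x => c ⊓ apw F (chk a) (chk x))
    (fun a x y hxy => apw_sv (fun lam hl hlam => (hF lam hl hlam).1.1) hxy) c hc0
  obtain ⟨lam, hl, hlam⟩ := exists_isUF hb0
  obtain ⟨h1, h2⟩ := hF lam hl (hl.mono hbc hlam)
  refine h2 ⟨val hl (chk z), E_chkT z, fun a y hay => ?_⟩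
  have hy := h1.2 _ _ hay
  have ha := h1.1.dom (zfc hl) hay
  have key : ∀ a, E hl a (val hl (chk j)) → ∀ y, E hl y (val hl (chkT K)) →
      App (E hl) (val hl F) a y → E hl y (val hl (chk z)) := by
    refine forall_chk (P := fun lam hl a => ∀ y, E hl y (val hl (chkT K)) →
      App (E hl) (val hl F) a y → E hl y (val hl (chk z))) ?_ (a := b) ?_ hlam
    · refine TD.all (P := fun lam hl y v => E hl y (val hl (chkT K)) →
        App (E hl) (val hl F) (v 0) y → E hl y (val hl (chk z))) ?_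
      exact TD.imp (TD.mem (Tm.var 0) (Tm.const _)) (TD.imp
        (TD.app (Tm.const _) (Tm.var 1) (Tm.var 0)) (TD.mem (Tm.var 0) (Tm.const _)))
    · intro a ha lam hl hlam
      refine forall_chkT (P := fun lam hl y => App (E hl) (val hl F) (val hl (chk a)) y →
        E hl y (val hl (chk z))) ?_ (a := b) ?_ hlam
      · exact TD.imp (TD.app (Tm.const _) (Tm.const _) (Tm.var 0)) (TD.mem (Tm.var 0) (Tm.const _))
      · intro y lam hl hlam hay
        rcases lt_or_ge y z with h3 | h3
        · exact E_chk_of h3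
        · have h4 := hb a ha y h3
          exact (hl.bot (h4 ▸ hl.inf hlam (hl.inf (hl.mono hbc hlam) (apw_iff.1 hay)))).elim
  exact key a ha y hy hay

/-- powersets of the elements of `K` are covered by elements of `K` -/
theorem pow_G (h : CoreG K D) (i : K) {lam : D → Prop} (hl : IsUF lam) {P : X hl}
    (hP : ∀ x, E hl x P → Sub (E hl) x (val hl (chk i))) :
    ∃ γ, E hl γ (val hl (chkT K)) ∧ Cov (E hl) γ P := by
  obtain ⟨j, hij, hinf⟩ := exists_inf h i
  obtain ⟨B, _, _, F, hB, hF, _⟩ := h.gch (Iio j) hinf (h.card_lt j)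
  refine ⟨val hl (chkT B), chkT_mem hB hl, Pool.Agent.W_61ad90.cov_pow hF hl fun x hx => ?_⟩
  have h1 : Sub (E hl) (val hl (chk i : BSet D)) (val hl (chk j)) := by
    rcases hij.eq_or_lt with rfl | h2
    · exact fun z hz => hz
    · exact fun z hz => (isOrd_chk j).trans (E_chk_of h2) hz
  exact fun z hz => h1 z (hP x hx z hz)

/-- `K` is inaccessible -/
theorem inac_G (h : CoreG K D) {lam : D → Prop} (hl : IsUF lam) : InacB (E hl) (val hl (chkT K : BSet D)) := by
  refine ⟨isOrd_chkT, ⟨_, isOmega_omB, omega_mem_G h hl⟩, ?_, ?_, ?_⟩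
  · refine forall_chkT (P := fun lam hl x => ∃ y, E hl y (val hl (chkT K)) ∧ E hl x y) ?_ (a := ⊤) ?_ hl.top
    · exact TD.ex (P := fun lam hl y v => E hl y (val hl (chkT K)) ∧ E hl (v 0) y)
        (TD.and (TD.mem (Tm.var 0) (Tm.const _)) (TD.mem (Tm.var 1) (Tm.var 0)))
    · intro i lam hl _
      obtain ⟨j, hj⟩ := exists_gtG h i
      exact ⟨_, E_chkT j, E_chk_of hj⟩
  · intro x f hx hf
    have key : ∀ x, E hl x (val hl (chkT K)) → ∀ f, Maps (E hl) f x (val hl (chkT K)) →
        ∃ β, E hl β (val hl (chkT K)) ∧ ∀ a y, App (E hl) f a y → E hl y β := by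
      refine forall_chkT (P := fun lam hl x => ∀ f, Maps (E hl) f x (val hl (chkT K)) →
        ∃ β, E hl β (val hl (chkT K)) ∧ ∀ a y, App (E hl) f a y → E hl y β) ?_ (a := ⊤) ?_ hl.top
      · refine TD.all (P := fun lam hl f v => Maps (E hl) f (v 0) (val hl (chkT K)) →
          ∃ β, E hl β (val hl (chkT K)) ∧ ∀ a y, App (E hl) f a y → E hl y β) ?_
        refine TD.imp (TD.maps (Tm.var 0) (Tm.var 1) (Tm.const _)) ?_
        refine TD.ex (P := fun lam hl β v => E hl β (val hl (chkT K)) ∧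
          ∀ a y, App (E hl) (v 0) a y → E hl y β) ?_
        refine TD.and (TD.mem (Tm.var 0) (Tm.const _)) ?_
        refine TD.all (P := fun lam hl a v => ∀ y, App (E hl) (v 1) a y → E hl y (v 0)) ?_
        exact TD.all (P := fun lam hl y v => App (E hl) (v 2) (v 0) y → E hl y (v 1))
          (TD.imp (TD.app (Tm.var 3) (Tm.var 1) (Tm.var 0)) (TD.mem (Tm.var 0) (Tm.var 2)))
      · intro j lam hl _ f hf
        exact reg_G h j hl hf
    exact key x hx f hf
  · intro x P hx hP
    have key : ∀ x, E hl x (val hl (chkT K)) → ∀ P, (∀ y, E hl y P → Sub (E hl) y x) →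
        ∃ γ, E hl γ (val hl (chkT K)) ∧ Cov (E hl) γ P := by
      refine forall_chkT (P := fun lam hl x => ∀ P, (∀ y, E hl y P → Sub (E hl) y x) →
        ∃ γ, E hl γ (val hl (chkT K)) ∧ Cov (E hl) γ P) ?_ (a := ⊤) ?_ hl.top
      · refine TD.all (P := fun lam hl P v => (∀ y, E hl y P → Sub (E hl) y (v 0)) →
          ∃ γ, E hl γ (val hl (chkT K)) ∧ Cov (E hl) γ P) ?_
        refine TD.imp ?_ ?_
        · exact TD.all (P := fun lam hl y v => E hl y (v 0) → Sub (E hl) y (v 1))
            (TD.imp (TD.mem (Tm.var 0) (Tm.var 1)) (TD.sub (Tm.var 0) (Tm.var 2)))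
        · exact TD.ex (P := fun lam hl γ v => E hl γ (val hl (chkT K)) ∧ Cov (E hl) γ (v 0))
            (TD.and (TD.mem (Tm.var 0) (Tm.const _)) (TD.cov1 (Tm.var 0) (Tm.var 1)))
      · intro i lam hl _ P hP
        exact pow_G h i hl hP
    exact key x hx P fun y hy => (hP y).1 hy

/-- GCH at the elements of `K` -/
theorem gchAt_G (h : CoreG K D) {lam : D → Prop} (hl : IsUF lam) :
    ∀ μ, E hl μ (val hl (chkT K)) → Pool.Agent.W_61ad90.GCHAt (E hl) μ := by
  refine forall_chkT (P := fun lam hl z => Pool.Agent.W_61ad90.GCHAt (E hl) z)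
    (TD.fo1 (R := fun _ E a => Pool.Agent.W_61ad90.GCHAt E a) (Pool.Agent.W_61ad90.GCHAt.fo 0) (Tm.var 0))
    (a := ⊤) ?_ hl.top
  intro t lam hl _ w ν P hw hμ hwμ hν hP
  rw [eq_omB hw] at hwμ
  by_cases hfin : Finite (Iio t)
  · exfalso
    refine not_omega_sub hfin hl ?_
    rcases hwμ with h1 | h1
    · rw [h1]
      exact fun z hz => hz
    · exact fun z hz => hμ.1.trans h1 hz
  · obtain ⟨B, _, _, F, _, hF, hG⟩ := h.gch (Iio t) (not_finite_iff_infinite.1 hfin) (h.card_lt t)
    have h1 : Cov (E hl) (val hl (chkT B : BSet D)) P :=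
      Pool.Agent.W_61ad90.cov_pow hF hl fun x hx => (hP x).1 hx
    refine h1.dom_mono (zfc hl) ?_
    refine hν.sub_of_cov (zfc hl) isOrd_chkT ?_
    refine forall_chkT (P := fun lam hl x => Cov (E hl) (val hl (chk t)) x)
      (TD.cov1 (Tm.const _) (Tm.var 0)) (a := ⊤) ?_ hl.top
    intro i lam hl _
    rw [chk_eq t]
    refine Pool.Agent.W_61ad90.cov_of_covN (A := Iio t) (fun a a' h => beq_chk_ne fun h' => h (Subtype.ext h'))
      ?_ hl
    obtain ⟨G, hG1, hG2⟩ := hG i
    exact ⟨G, hG1, hG2⟩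

end

end F61BM
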